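import Pool.Agent.helper83.OD.Spec

/-! Project od:, module F5. -/

set_option autoImplicit false

open Finset PowerSeries

noncomputable section

namespace Pool.Agent.OD

open Pool.Agent.EP

theorem F5_PP0 : PowerSeries.coeff 0 (helper81.PP ^ 5) = 1 := by
  have h0 : PowerSeries.constantCoeff helper81.PP = 1 := by
    have h : PowerSeries.constantCoeff helper81.PP ≠ 0 := by
      intro h
      have h1 := congrArg (PowerSeries.constantCoeff (R := ZMod 2)) helper81.PP_mul_EE
      rw [map_mul, h, zero_mul, map_one] at h1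
      exact zero_ne_one h1
    have h2 : ∀ x : ZMod 2, x ≠ 0 → x = 1 := by decide
    exact h2 _ h
  rw [PowerSeries.coeff_zero_eq_constantCoeff_apply, map_pow, h0, one_pow]

/-- **F5**. -/
theorem F5 (hJW : JW_stmt) (hJN : JN_stmt) (hNEG : NEG_stmt) (hWM : WM_stmt) : F5_stmt := by
  obtain ⟨f, hf, hfc⟩ := hJW 5 (by norm_num) (by norm_num)
  have hw : ww ^ 5 ∈ WW := Submodule.subset_span ⟨5, by norm_num, rfl⟩
  have h := hNEG (ww ^ 5 - f) (Submodule.sub_mem _ hw hf) (by
    intro M hM
    rw [HahnSeries.coeff_sub, hfc M, hJN 5 M (by norm_num) hM, hWM.1 5 M, sub_eq_zero]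
    by_cases h5 : M = -5
    · subst h5
      rw [if_pos (by norm_num), if_pos (by norm_num)]
      exact F5_PP0
    · rw [if_neg (by push_cast; omega), if_neg (by push_cast; omega)])
  intro M
  rw [← hfc M, sub_eq_zero.1 h]

end Pool.Agent.OD
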